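import Pool.Agent.N413.FF.En
import Pool.Agent.Results.MP_953b23_mp.OverlapBoosting

/-! # Gapped families of frustration-free Hamiltonians (helper424, project FF) -/

set_option autoImplicit false

open scoped BigOperators InnerProductSpace Matrix Classical ComplexOrder

noncomputable section

namespace Pool.Agent.N424.FF

open Pool.Agent.TH235.PP Pool.Agent.N658.FF

lemma ham_mulVec {d R : ℕ} (h : BoxOp d R) (L : ℕ) [NeZero L] (φ : (Site L → Fin d) → ℂ) :
    ham h L *ᵥ φ = ∑ u : Site L, term h u *ᵥ φ := by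
  unfold ham
  rw [Matrix.sum_mulVec]

lemma ip_sum_right {S : Type} [Fintype S] {ι : Type} (s : Finset ι) (ψ : S → ℂ)
    (f : ι → S → ℂ) : ip ψ (∑ u ∈ s, f u) = ∑ u ∈ s, ip ψ (f u) := by
  unfold ip
  rw [Finset.sum_comm]
  refine Finset.sum_congr rfl fun x _ => ?_
  rw [Finset.sum_apply, Finset.mul_sum]

lemma re_ip_ham {d R : ℕ} (h : BoxOp d R) (L : ℕ) [NeZero L] (φ : (Site L → Fin d) → ℂ) :
    (ip φ (ham h L *ᵥ φ)).re = ∑ u : Site L, (ip φ (term h u *ᵥ φ)).re := by
  rw [ham_mulVec, ip_sum_right, Complex.re_sum]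

lemma ip_zero_right {S : Type} [Fintype S] (ψ : S → ℂ) : ip ψ (0 : S → ℂ) = 0 := by
  unfold ip
  simp

lemma ip_smul_right {S : Type} [Fintype S] (c : ℂ) (ψ φ : S → ℂ) :
    ip ψ (c • φ) = c * ip ψ φ := by
  unfold ip
  rw [Finset.mul_sum]
  refine Finset.sum_congr rfl fun x _ => ?_
  simp only [Pi.smul_apply, smul_eq_mul]
  ring

lemma ip_self_re {S : Type} [Fintype S] (φ : S → ℂ) : (ip φ φ).re = normSq φ := by
  unfold ip normSq
  rw [Complex.re_sum]
  refine Finset.sum_congr rfl fun x _ => ?_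
  rw [← Complex.normSq_eq_conj_mul_self, Complex.ofReal_re, Complex.normSq_eq_norm_sq]

lemma normSq_pos {S : Type} [Fintype S] {φ : S → ℂ} (h : φ ≠ 0) : 0 < normSq φ := by
  unfold normSq
  obtain ⟨x, hx⟩ := Function.ne_iff.1 h
  refine Finset.sum_pos' (fun y _ => by positivity) ⟨x, Finset.mem_univ x, ?_⟩
  have : 0 < ‖φ x‖ := norm_pos_iff.2 hx
  positivity

/-- a vector annihilated by the Hamiltonian is annihilated by all the terms -/
lemma ker_ham {d R : ℕ} {h : BoxOp d R} (hh : h.PosSemidef) (L : ℕ) [NeZero L]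
    (φ : (Site L → Fin d) → ℂ) (hφ : ham h L *ᵥ φ = 0) (u : Site L) : term h u *ᵥ φ = 0 := by
  have h1 : ∑ u : Site L, (ip φ (term h u *ᵥ φ)).re = 0 := by
    rw [← re_ip_ham, hφ, ip_zero_right, Complex.zero_re]
  have h2 := (Finset.sum_eq_zero_iff_of_nonneg
    (fun v _ => Pool.Agent.N413.FF.re_nonneg (Pool.Agent.N413.FF.term_psd hh v) φ)).1 h1 u
    (Finset.mem_univ u)
  have hA := Pool.Agent.N413.FF.term_psd (L := L) hh u
  have h3 : ip φ (term h u *ᵥ φ) = star φ ⬝ᵥ (term h u *ᵥ φ) := rfl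
  have h4 : star φ ⬝ᵥ (term h u *ᵥ φ) = 0 := by
    have h5 := hA.dotProduct_mulVec_nonneg φ
    have h6 := (Complex.le_def.1 h5).2
    apply Complex.ext
    · rw [← h3]; exact h2
    · rw [← h6]
  exact (hA.dotProduct_mulVec_zero_iff φ).1 h4

theorem fam : StmFam := by
  intro d R h hR hh Δ A₀ a hΔ hG Ψ hΨ
  obtain ⟨L1, hG⟩ := hG
  obtain ⟨L2, hΨ⟩ := hΨ
  refine ⟨⟨hR, hh.1, hΔ, max L1 L2, ?_⟩, L2, ?_⟩
  · intro L _ hL
    obtain ⟨hgap, hdeg⟩ := hG L (le_trans (le_max_left _ _) hL)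
    obtain ⟨hn, hk⟩ := hΨ L (le_trans (le_max_right _ _) hL)
    refine ⟨hn, 0, ?_, ?_, ?_⟩
    · rw [Complex.ofReal_zero, zero_smul]
      exact hk
    · intro φ hφ
      rw [Complex.ofReal_zero, zero_smul] at hφ
      have hmem : ∀ ψ : (Site L → Fin d) → ℂ, ham h L *ᵥ ψ = 0 → ψ ∈ offSpace h L 1 ∅ :=
        fun ψ hψ u _ => ker_ham hh L ψ hψ u
      have h1 := hdeg 1 ∅ le_rfl (Nat.one_le_iff_ne_zero.2 (NeZero.ne L))
      have h2 : Module.finrank ℂ (offSpace h L 1 ∅) ≤ 1 := by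
        have : (Module.finrank ℂ (offSpace h L 1 ∅) : ℝ) ≤ 1 := by
          refine h1.trans (le_of_eq ?_)
          simp
        exact_mod_cast this
      have hne : Ψ L ≠ 0 := by
        intro h0
        rw [h0] at hn
        simp [normSq] at hn
      obtain ⟨v, hv⟩ := (finrank_le_one_iff.1 h2)
      obtain ⟨c1, hc1⟩ := hv ⟨Ψ L, hmem _ hk⟩
      obtain ⟨c2, hc2⟩ := hv ⟨φ, hmem _ hφ⟩
      have e1 : c1 • (v : (Site L → Fin d) → ℂ) = Ψ L := congrArg Subtype.val hc1
      have e2 : c2 • (v : (Site L → Fin d) → ℂ) = φ := congrArg Subtype.val hc2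
      have hc0 : c1 ≠ 0 := by
        intro h0
        apply hne
        rw [← e1, h0, zero_smul]
      refine ⟨c2 / c1, ?_⟩
      rw [← e1, ← e2, smul_smul, div_mul_cancel₀ _ hc0]
    · intro E' φ hφ hE
      by_cases h0 : E' = 0
      · exact Or.inl h0
      · right
        have horth : ∀ ψ : (Site L → Fin d) → ℂ,
            (∀ u ∈ (Finset.univ : Finset (Site L)), term h u *ᵥ ψ = 0) → ip ψ φ = 0 := by
          intro ψ hψ
          have hz : ham h L *ᵥ ψ = 0 := by
            rw [ham_mulVec]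
            exact Finset.sum_eq_zero hψ
          have hH : (ham h L).IsHermitian := by
            unfold ham
            exact (Matrix.posSemidef_sum _ fun u _ => Pool.Agent.N413.FF.term_psd hh u).1
          have h1 : ip ψ (ham h L *ᵥ φ) = 0 := by
            have e1 : ip ψ (ham h L *ᵥ φ) = star ψ ⬝ᵥ (ham h L *ᵥ φ) := rfl
            have e2 : star ψ ᵥ* ham h L = star (ham h L *ᵥ ψ) := by
              rw [Matrix.star_mulVec, hH.eq]
            rw [e1, Matrix.dotProduct_mulVec, e2, hz, star_zero, zero_dotProduct]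
          rw [hE, ip_smul_right] at h1
          rcases mul_eq_zero.1 h1 with h2 | h2
          · exact absurd (Complex.ofReal_eq_zero.1 h2) h0
          · exact h2
        have h1 := hgap Finset.univ φ horth
        rw [← re_ip_ham, hE, ip_smul_right, Complex.re_ofReal_mul, ip_self_re] at h1
        have := normSq_pos hφ
        rw [zero_add]
        exact le_of_mul_le_mul_right h1 this
  · intro L _ hL
    obtain ⟨_, hk⟩ := hΨ L hL
    unfold Pool.Agent.Results.MP_953b23_mp.ThermalCriterion.energy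
    rw [hk, ip_zero_right, Complex.zero_re]

end Pool.Agent.N424.FF
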